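import Pool.Agent.Lead.SR.Hyp

open Pool.Agent.H38.NP Pool.Agent.H38.ER Pool.Agent.Lead.SR

theorem Pool.Agent.Results.MP_485bb6_lc.Complete.result (d : ℕ) (hd : 3 ≤ d)
    (P : ℕ × List (ℕ × ℕ) → Prop)
    (hP : P = fun p => ∃ r > (0 : ℝ), ∃ c : Fin p.1 → EuclideanSpace ℝ (Fin (d - 1)) × Set.Ioi (0 : ℝ),
      ∀ u v, u ≠ v → ((graphOf p.1 p.2).Adj u v ↔ hdist (c u) (c v) ≤ 2 * r)) :
    ERHardOn (fun _ => True) P ∧ Reduces (lang P) (lang ETR) := by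
  obtain ⟨k, rfl⟩ : ∃ k, d = k + 2 := ⟨d - 2, by omega⟩
  subst hP
  exact ⟨(hyp_erh k).hardOn, hyp_mem _⟩
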